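import Mathlib

/-! # Basic definitions for the d-bar problem on indicator functions -/

open MeasureTheory Complex Metric Set Filter Topology
open scoped ContDiff ENNReal NNReal

namespace H98.Dbar

/-- The operator `∂/∂z̄ = ½(∂ₓ + i ∂ᵧ)`. -/
noncomputable def dbar (f : ℂ → ℂ) (z : ℂ) : ℂ :=
  (1 / 2 : ℂ) * (fderiv ℝ f z 1 + I * fderiv ℝ f z I)

/-- A radial profile. -/
structure IsProfile (H : ℝ → ℝ) : Prop where
  smooth : ContDiff ℝ ∞ H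
  mono : Monotone H
  zero : ∃ s₀ : ℝ, 0 < s₀ ∧ ∀ s ≤ s₀, H s = 0
  one : ∀ s : ℝ, 1 ≤ s → H s = 1

/-- The radial bump `φ(z) = H'(|z|²)/π`. -/
noncomputable def bump (H : ℝ → ℝ) (z : ℂ) : ℝ := deriv H (‖z‖ ^ 2) / Real.pi

/-- The `L¹`-normalised dyadic dilate `4^j φ(2^j z)`. -/
noncomputable def bumpAt (H : ℝ → ℝ) (j : ℕ) (z : ℂ) : ℝ := 4 ^ j * bump H (2 ^ j * z)

/-- The mollified indicator `χ_Ω * φ_j`. -/
noncomputable def moll (H : ℝ → ℝ) (j : ℕ) (Ω : Set ℂ) (z : ℂ) : ℝ :=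
  ∫ w in Ω, bumpAt H j (z - w)

end H98.Dbar
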